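import Pool.Agent.Lib.MP_afdd4d_co.T1S.StrArr

/-!
# Strict checks of bases
-/

namespace Pool.Agent.Lib.MP_afdd4d_co.T1S

open K8

theorem st11 :
    (part 1 198 reps).all oneS = true ∧
    (part 1 199 reps).all oneS = true ∧
    (part 1 200 reps).all oneS = true ∧
    (part 1 201 reps).all oneS = true ∧
    (part 1 202 reps).all oneS = true ∧
    (part 1 203 reps).all oneS = true ∧
    (part 1 204 reps).all oneS = true ∧
    (part 1 205 reps).all oneS = true ∧
    (part 1 206 reps).all oneS = true ∧
    (part 1 207 reps).all oneS = true ∧
    (part 1 208 reps).all oneS = true ∧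
    (part 1 209 reps).all oneS = true ∧
    (part 1 210 reps).all oneS = true ∧
    (part 1 211 reps).all oneS = true ∧
    (part 1 212 reps).all oneS = true ∧
    (part 1 213 reps).all oneS = true ∧
    (part 1 214 reps).all oneS = true ∧
    (part 1 215 reps).all oneS = true :=
  ⟨by decide +kernel,
   by decide +kernel,
   by decide +kernel,
   by decide +kernel,
   by decide +kernel,
   by decide +kernel,
   by decide +kernel,
   by decide +kernel,
   by decide +kernel,
   by decide +kernel,
   by decide +kernel,
   by decide +kernel,
   by decide +kernel,
   by decide +kernel,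
   by decide +kernel,
   by decide +kernel,
   by decide +kernel,
   by decide +kernel⟩

end Pool.Agent.Lib.MP_afdd4d_co.T1S
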