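import Pool.Agent.Lib.MP_afdd4d_co.T1S.StrArr

/-!
# Strict checks of bases
-/

namespace Pool.Agent.Lib.MP_afdd4d_co.T1S

open K8

theorem st12 :
    (part 1 216 reps).all oneS = true ∧
    (part 1 217 reps).all oneS = true ∧
    (part 1 218 reps).all oneS = true ∧
    (part 1 219 reps).all oneS = true ∧
    (part 1 220 reps).all oneS = true ∧
    (part 1 221 reps).all oneS = true ∧
    (part 1 222 reps).all oneS = true ∧
    (part 1 223 reps).all oneS = true ∧
    (part 1 224 reps).all oneS = true ∧
    (part 1 225 reps).all oneS = true ∧
    (part 1 226 reps).all oneS = true ∧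
    (part 1 227 reps).all oneS = true ∧
    (part 1 228 reps).all oneS = true ∧
    (part 1 229 reps).all oneS = true ∧
    (part 1 230 reps).all oneS = true ∧
    (part 1 231 reps).all oneS = true ∧
    (part 1 232 reps).all oneS = true ∧
    (part 1 233 reps).all oneS = true :=
  ⟨by decide +kernel,
   by decide +kernel,
   by decide +kernel,
   by decide +kernel,
   by decide +kernel,
   by decide +kernel,
   by decide +kernel,
   by decide +kernel,
   by decide +kernel,
   by decide +kernel,
   by decide +kernel,
   by decide +kernel,
   by decide +kernel,
   by decide +kernel,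
   by decide +kernel,
   by decide +kernel,
   by decide +kernel,
   by decide +kernel⟩

end Pool.Agent.Lib.MP_afdd4d_co.T1S
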