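import Pool.Agent.Lib.MP_afdd4d_co.T1S.StrArr

/-!
# Strict checks of bases
-/

namespace Pool.Agent.Lib.MP_afdd4d_co.T1S

open K8

theorem st13 :
    (part 1 234 reps).all oneS = true ∧
    (part 1 235 reps).all oneS = true ∧
    (part 1 236 reps).all oneS = true ∧
    (part 1 237 reps).all oneS = true ∧
    (part 1 238 reps).all oneS = true ∧
    (part 1 239 reps).all oneS = true ∧
    (part 1 240 reps).all oneS = true ∧
    (part 1 241 reps).all oneS = true ∧
    (part 1 242 reps).all oneS = true ∧
    (part 1 243 reps).all oneS = true ∧
    (part 1 244 reps).all oneS = true ∧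
    (part 1 245 reps).all oneS = true ∧
    (part 1 246 reps).all oneS = true ∧
    (part 1 247 reps).all oneS = true ∧
    (part 1 248 reps).all oneS = true ∧
    (part 1 249 reps).all oneS = true ∧
    (part 1 250 reps).all oneS = true ∧
    (part 1 251 reps).all oneS = true :=
  ⟨by decide +kernel,
   by decide +kernel,
   by decide +kernel,
   by decide +kernel,
   by decide +kernel,
   by decide +kernel,
   by decide +kernel,
   by decide +kernel,
   by decide +kernel,
   by decide +kernel,
   by decide +kernel,
   by decide +kernel,
   by decide +kernel,
   by decide +kernel,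
   by decide +kernel,
   by decide +kernel,
   by decide +kernel,
   by decide +kernel⟩

end Pool.Agent.Lib.MP_afdd4d_co.T1S
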