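import Pool.Agent.Lib.MP_afdd4d_co.T1S.StrArr

/-!
# Strict checks of bases
-/

namespace Pool.Agent.Lib.MP_afdd4d_co.T1S

open K8

theorem st15 :
    (part 1 270 reps).all oneS = true ∧
    (part 1 271 reps).all oneS = true ∧
    (part 1 272 reps).all oneS = true ∧
    (part 1 273 reps).all oneS = true ∧
    (part 1 274 reps).all oneS = true ∧
    (part 1 275 reps).all oneS = true ∧
    (part 1 276 reps).all oneS = true ∧
    (part 1 277 reps).all oneS = true ∧
    (part 1 278 reps).all oneS = true ∧
    (part 1 279 reps).all oneS = true ∧
    (part 1 280 reps).all oneS = true ∧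
    (part 1 281 reps).all oneS = true ∧
    (part 1 282 reps).all oneS = true ∧
    (part 1 283 reps).all oneS = true ∧
    (part 1 284 reps).all oneS = true ∧
    (part 1 285 reps).all oneS = true ∧
    (part 1 286 reps).all oneS = true ∧
    (part 1 287 reps).all oneS = true :=
  ⟨by decide +kernel,
   by decide +kernel,
   by decide +kernel,
   by decide +kernel,
   by decide +kernel,
   by decide +kernel,
   by decide +kernel,
   by decide +kernel,
   by decide +kernel,
   by decide +kernel,
   by decide +kernel,
   by decide +kernel,
   by decide +kernel,
   by decide +kernel,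
   by decide +kernel,
   by decide +kernel,
   by decide +kernel,
   by decide +kernel⟩

end Pool.Agent.Lib.MP_afdd4d_co.T1S
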