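import Pool.Agent.Lib.MP_afdd4d_co.T1S.StrArr

/-!
# Strict checks of bases
-/

namespace Pool.Agent.Lib.MP_afdd4d_co.T1S

open K8

theorem st16 :
    (part 1 288 reps).all oneS = true ∧
    (part 1 289 reps).all oneS = true ∧
    (part 1 290 reps).all oneS = true ∧
    (part 1 291 reps).all oneS = true ∧
    (part 1 292 reps).all oneS = true ∧
    (part 1 293 reps).all oneS = true ∧
    (part 1 294 reps).all oneS = true ∧
    (part 1 295 reps).all oneS = true ∧
    (part 1 296 reps).all oneS = true ∧
    (part 1 297 reps).all oneS = true ∧
    (part 1 298 reps).all oneS = true ∧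
    (part 1 299 reps).all oneS = true ∧
    (part 1 300 reps).all oneS = true ∧
    (part 1 301 reps).all oneS = true ∧
    (part 1 302 reps).all oneS = true ∧
    (part 1 303 reps).all oneS = true ∧
    (part 1 304 reps).all oneS = true ∧
    (part 1 305 reps).all oneS = true :=
  ⟨by decide +kernel,
   by decide +kernel,
   by decide +kernel,
   by decide +kernel,
   by decide +kernel,
   by decide +kernel,
   by decide +kernel,
   by decide +kernel,
   by decide +kernel,
   by decide +kernel,
   by decide +kernel,
   by decide +kernel,
   by decide +kernel,
   by decide +kernel,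
   by decide +kernel,
   by decide +kernel,
   by decide +kernel,
   by decide +kernel⟩

end Pool.Agent.Lib.MP_afdd4d_co.T1S
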