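import Pool.Agent.Lib.MP_afdd4d_co.T1S.StrArr

/-!
# Strict checks of bases
-/

namespace Pool.Agent.Lib.MP_afdd4d_co.T1S

open K8

theorem st18 :
    (part 1 324 reps).all oneS = true ∧
    (part 1 325 reps).all oneS = true ∧
    (part 1 326 reps).all oneS = true ∧
    (part 1 327 reps).all oneS = true ∧
    (part 1 328 reps).all oneS = true ∧
    (part 1 329 reps).all oneS = true ∧
    (part 1 330 reps).all oneS = true ∧
    (part 1 331 reps).all oneS = true ∧
    (part 1 332 reps).all oneS = true ∧
    (part 1 333 reps).all oneS = true ∧
    (part 1 334 reps).all oneS = true ∧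
    (part 1 335 reps).all oneS = true ∧
    (part 1 336 reps).all oneS = true ∧
    (part 1 337 reps).all oneS = true ∧
    (part 1 338 reps).all oneS = true ∧
    (part 1 339 reps).all oneS = true ∧
    (part 1 340 reps).all oneS = true ∧
    (part 1 341 reps).all oneS = true :=
  ⟨by decide +kernel,
   by decide +kernel,
   by decide +kernel,
   by decide +kernel,
   by decide +kernel,
   by decide +kernel,
   by decide +kernel,
   by decide +kernel,
   by decide +kernel,
   by decide +kernel,
   by decide +kernel,
   by decide +kernel,
   by decide +kernel,
   by decide +kernel,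
   by decide +kernel,
   by decide +kernel,
   by decide +kernel,
   by decide +kernel⟩

end Pool.Agent.Lib.MP_afdd4d_co.T1S
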