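import Pool.Agent.Lib.MP_afdd4d_co.T1S.StrArr

/-!
# Strict checks of bases
-/

namespace Pool.Agent.Lib.MP_afdd4d_co.T1S

open K8

theorem st2 :
    (part 1 36 reps).all oneS = true ∧
    (part 1 37 reps).all oneS = true ∧
    (part 1 38 reps).all oneS = true ∧
    (part 1 39 reps).all oneS = true ∧
    (part 1 40 reps).all oneS = true ∧
    (part 1 41 reps).all oneS = true ∧
    (part 1 42 reps).all oneS = true ∧
    (part 1 43 reps).all oneS = true ∧
    (part 1 44 reps).all oneS = true ∧
    (part 1 45 reps).all oneS = true ∧
    (part 1 46 reps).all oneS = true ∧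
    (part 1 47 reps).all oneS = true ∧
    (part 1 48 reps).all oneS = true ∧
    (part 1 49 reps).all oneS = true ∧
    (part 1 50 reps).all oneS = true ∧
    (part 1 51 reps).all oneS = true ∧
    (part 1 52 reps).all oneS = true ∧
    (part 1 53 reps).all oneS = true :=
  ⟨by decide +kernel,
   by decide +kernel,
   by decide +kernel,
   by decide +kernel,
   by decide +kernel,
   by decide +kernel,
   by decide +kernel,
   by decide +kernel,
   by decide +kernel,
   by decide +kernel,
   by decide +kernel,
   by decide +kernel,
   by decide +kernel,
   by decide +kernel,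
   by decide +kernel,
   by decide +kernel,
   by decide +kernel,
   by decide +kernel⟩

end Pool.Agent.Lib.MP_afdd4d_co.T1S
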