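import Pool.Agent.Lib.MP_afdd4d_co.T1S.StrArr

/-!
# Strict checks of bases
-/

namespace Pool.Agent.Lib.MP_afdd4d_co.T1S

open K8

theorem st20 :
    (part 1 360 reps).all oneS = true ∧
    (part 1 361 reps).all oneS = true ∧
    (part 1 362 reps).all oneS = true ∧
    (part 1 363 reps).all oneS = true ∧
    (part 1 364 reps).all oneS = true ∧
    (part 1 365 reps).all oneS = true ∧
    (part 1 366 reps).all oneS = true ∧
    (part 1 367 reps).all oneS = true ∧
    (part 1 368 reps).all oneS = true ∧
    (part 1 369 reps).all oneS = true ∧
    (part 1 370 reps).all oneS = true ∧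
    (part 1 371 reps).all oneS = true ∧
    (part 1 372 reps).all oneS = true ∧
    (part 1 373 reps).all oneS = true ∧
    (part 1 374 reps).all oneS = true ∧
    (part 1 375 reps).all oneS = true ∧
    (part 1 376 reps).all oneS = true ∧
    (part 1 377 reps).all oneS = true :=
  ⟨by decide +kernel,
   by decide +kernel,
   by decide +kernel,
   by decide +kernel,
   by decide +kernel,
   by decide +kernel,
   by decide +kernel,
   by decide +kernel,
   by decide +kernel,
   by decide +kernel,
   by decide +kernel,
   by decide +kernel,
   by decide +kernel,
   by decide +kernel,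
   by decide +kernel,
   by decide +kernel,
   by decide +kernel,
   by decide +kernel⟩

end Pool.Agent.Lib.MP_afdd4d_co.T1S
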