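import Pool.Agent.Lib.MP_afdd4d_co.T1S.StrArr

/-!
# Strict checks of bases
-/

namespace Pool.Agent.Lib.MP_afdd4d_co.T1S

open K8

theorem st23 :
    (part 1 414 reps).all oneS = true ∧
    (part 1 415 reps).all oneS = true ∧
    (part 1 416 reps).all oneS = true ∧
    (part 1 417 reps).all oneS = true ∧
    (part 1 418 reps).all oneS = true ∧
    (part 1 419 reps).all oneS = true ∧
    (part 1 420 reps).all oneS = true ∧
    (part 1 421 reps).all oneS = true ∧
    (part 1 422 reps).all oneS = true :=
  ⟨by decide +kernel,
   by decide +kernel,
   by decide +kernel,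
   by decide +kernel,
   by decide +kernel,
   by decide +kernel,
   by decide +kernel,
   by decide +kernel,
   by decide +kernel⟩

end Pool.Agent.Lib.MP_afdd4d_co.T1S
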