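import Pool.Agent.Lib.MP_afdd4d_co.T1S.StrArr

/-!
# Strict checks of bases
-/

namespace Pool.Agent.Lib.MP_afdd4d_co.T1S

open K8

theorem st3 :
    (part 1 54 reps).all oneS = true ∧
    (part 1 55 reps).all oneS = true ∧
    (part 1 56 reps).all oneS = true ∧
    (part 1 57 reps).all oneS = true ∧
    (part 1 58 reps).all oneS = true ∧
    (part 1 59 reps).all oneS = true ∧
    (part 1 60 reps).all oneS = true ∧
    (part 1 61 reps).all oneS = true ∧
    (part 1 62 reps).all oneS = true ∧
    (part 1 63 reps).all oneS = true ∧
    (part 1 64 reps).all oneS = true ∧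
    (part 1 65 reps).all oneS = true ∧
    (part 1 66 reps).all oneS = true ∧
    (part 1 67 reps).all oneS = true ∧
    (part 1 68 reps).all oneS = true ∧
    (part 1 69 reps).all oneS = true ∧
    (part 1 70 reps).all oneS = true ∧
    (part 1 71 reps).all oneS = true :=
  ⟨by decide +kernel,
   by decide +kernel,
   by decide +kernel,
   by decide +kernel,
   by decide +kernel,
   by decide +kernel,
   by decide +kernel,
   by decide +kernel,
   by decide +kernel,
   by decide +kernel,
   by decide +kernel,
   by decide +kernel,
   by decide +kernel,
   by decide +kernel,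
   by decide +kernel,
   by decide +kernel,
   by decide +kernel,
   by decide +kernel⟩

end Pool.Agent.Lib.MP_afdd4d_co.T1S
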