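import Pool.Agent.Lib.MP_afdd4d_co.T1S.StrArr

/-!
# Strict checks of bases
-/

namespace Pool.Agent.Lib.MP_afdd4d_co.T1S

open K8

theorem st4 :
    (part 1 72 reps).all oneS = true ∧
    (part 1 73 reps).all oneS = true ∧
    (part 1 74 reps).all oneS = true ∧
    (part 1 75 reps).all oneS = true ∧
    (part 1 76 reps).all oneS = true ∧
    (part 1 77 reps).all oneS = true ∧
    (part 1 78 reps).all oneS = true ∧
    (part 1 79 reps).all oneS = true ∧
    (part 1 80 reps).all oneS = true ∧
    (part 1 81 reps).all oneS = true ∧
    (part 1 82 reps).all oneS = true ∧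
    (part 1 83 reps).all oneS = true ∧
    (part 1 84 reps).all oneS = true ∧
    (part 1 85 reps).all oneS = true ∧
    (part 1 86 reps).all oneS = true ∧
    (part 1 87 reps).all oneS = true ∧
    (part 1 88 reps).all oneS = true ∧
    (part 1 89 reps).all oneS = true :=
  ⟨by decide +kernel,
   by decide +kernel,
   by decide +kernel,
   by decide +kernel,
   by decide +kernel,
   by decide +kernel,
   by decide +kernel,
   by decide +kernel,
   by decide +kernel,
   by decide +kernel,
   by decide +kernel,
   by decide +kernel,
   by decide +kernel,
   by decide +kernel,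
   by decide +kernel,
   by decide +kernel,
   by decide +kernel,
   by decide +kernel⟩

end Pool.Agent.Lib.MP_afdd4d_co.T1S
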