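import Pool.Agent.Lib.MP_afdd4d_co.T1S.StrArr

/-!
# Strict checks of bases
-/

namespace Pool.Agent.Lib.MP_afdd4d_co.T1S

open K8

theorem st5 :
    (part 1 90 reps).all oneS = true ∧
    (part 1 91 reps).all oneS = true ∧
    (part 1 92 reps).all oneS = true ∧
    (part 1 93 reps).all oneS = true ∧
    (part 1 94 reps).all oneS = true ∧
    (part 1 95 reps).all oneS = true ∧
    (part 1 96 reps).all oneS = true ∧
    (part 1 97 reps).all oneS = true ∧
    (part 1 98 reps).all oneS = true ∧
    (part 1 99 reps).all oneS = true ∧
    (part 1 100 reps).all oneS = true ∧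
    (part 1 101 reps).all oneS = true ∧
    (part 1 102 reps).all oneS = true ∧
    (part 1 103 reps).all oneS = true ∧
    (part 1 104 reps).all oneS = true ∧
    (part 1 105 reps).all oneS = true ∧
    (part 1 106 reps).all oneS = true ∧
    (part 1 107 reps).all oneS = true :=
  ⟨by decide +kernel,
   by decide +kernel,
   by decide +kernel,
   by decide +kernel,
   by decide +kernel,
   by decide +kernel,
   by decide +kernel,
   by decide +kernel,
   by decide +kernel,
   by decide +kernel,
   by decide +kernel,
   by decide +kernel,
   by decide +kernel,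
   by decide +kernel,
   by decide +kernel,
   by decide +kernel,
   by decide +kernel,
   by decide +kernel⟩

end Pool.Agent.Lib.MP_afdd4d_co.T1S
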