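import Pool.Agent.Lib.MP_afdd4d_co.T1S.StrArr

/-!
# Strict checks of bases
-/

namespace Pool.Agent.Lib.MP_afdd4d_co.T1S

open K8

theorem st9 :
    (part 1 162 reps).all oneS = true ∧
    (part 1 163 reps).all oneS = true ∧
    (part 1 164 reps).all oneS = true ∧
    (part 1 165 reps).all oneS = true ∧
    (part 1 166 reps).all oneS = true ∧
    (part 1 167 reps).all oneS = true ∧
    (part 1 168 reps).all oneS = true ∧
    (part 1 169 reps).all oneS = true ∧
    (part 1 170 reps).all oneS = true ∧
    (part 1 171 reps).all oneS = true ∧
    (part 1 172 reps).all oneS = true ∧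
    (part 1 173 reps).all oneS = true ∧
    (part 1 174 reps).all oneS = true ∧
    (part 1 175 reps).all oneS = true ∧
    (part 1 176 reps).all oneS = true ∧
    (part 1 177 reps).all oneS = true ∧
    (part 1 178 reps).all oneS = true ∧
    (part 1 179 reps).all oneS = true :=
  ⟨by decide +kernel,
   by decide +kernel,
   by decide +kernel,
   by decide +kernel,
   by decide +kernel,
   by decide +kernel,
   by decide +kernel,
   by decide +kernel,
   by decide +kernel,
   by decide +kernel,
   by decide +kernel,
   by decide +kernel,
   by decide +kernel,
   by decide +kernel,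
   by decide +kernel,
   by decide +kernel,
   by decide +kernel,
   by decide +kernel⟩

end Pool.Agent.Lib.MP_afdd4d_co.T1S
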