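import Pool.Agent.Lib.MP_afdd4d_co.T1S.StrArr

/-!
# Strict checks of bases
-/

namespace Pool.Agent.Lib.MP_afdd4d_co.T1S

open K8

theorem st0 :
    (part 1 0 reps).all oneS = true ∧
    (part 1 1 reps).all oneS = true ∧
    (part 1 2 reps).all oneS = true ∧
    (part 1 3 reps).all oneS = true ∧
    (part 1 4 reps).all oneS = true ∧
    (part 1 5 reps).all oneS = true ∧
    (part 1 6 reps).all oneS = true ∧
    (part 1 7 reps).all oneS = true ∧
    (part 1 8 reps).all oneS = true ∧
    (part 1 9 reps).all oneS = true ∧
    (part 1 10 reps).all oneS = true ∧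
    (part 1 11 reps).all oneS = true ∧
    (part 1 12 reps).all oneS = true ∧
    (part 1 13 reps).all oneS = true ∧
    (part 1 14 reps).all oneS = true ∧
    (part 1 15 reps).all oneS = true ∧
    (part 1 16 reps).all oneS = true ∧
    (part 1 17 reps).all oneS = true :=
  ⟨by decide +kernel,
   by decide +kernel,
   by decide +kernel,
   by decide +kernel,
   by decide +kernel,
   by decide +kernel,
   by decide +kernel,
   by decide +kernel,
   by decide +kernel,
   by decide +kernel,
   by decide +kernel,
   by decide +kernel,
   by decide +kernel,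
   by decide +kernel,
   by decide +kernel,
   by decide +kernel,
   by decide +kernel,
   by decide +kernel⟩

end Pool.Agent.Lib.MP_afdd4d_co.T1S
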