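import Pool.Agent.Lib.MP_afdd4d_co.T1S.StrArr

/-!
# Strict checks of bases
-/

namespace Pool.Agent.Lib.MP_afdd4d_co.T1S

open K8

theorem st8 :
    (part 1 144 reps).all oneS = true ∧
    (part 1 145 reps).all oneS = true ∧
    (part 1 146 reps).all oneS = true ∧
    (part 1 147 reps).all oneS = true ∧
    (part 1 148 reps).all oneS = true ∧
    (part 1 149 reps).all oneS = true ∧
    (part 1 150 reps).all oneS = true ∧
    (part 1 151 reps).all oneS = true ∧
    (part 1 152 reps).all oneS = true ∧
    (part 1 153 reps).all oneS = true ∧
    (part 1 154 reps).all oneS = true ∧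
    (part 1 155 reps).all oneS = true ∧
    (part 1 156 reps).all oneS = true ∧
    (part 1 157 reps).all oneS = true ∧
    (part 1 158 reps).all oneS = true ∧
    (part 1 159 reps).all oneS = true ∧
    (part 1 160 reps).all oneS = true ∧
    (part 1 161 reps).all oneS = true :=
  ⟨by decide +kernel,
   by decide +kernel,
   by decide +kernel,
   by decide +kernel,
   by decide +kernel,
   by decide +kernel,
   by decide +kernel,
   by decide +kernel,
   by decide +kernel,
   by decide +kernel,
   by decide +kernel,
   by decide +kernel,
   by decide +kernel,
   by decide +kernel,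
   by decide +kernel,
   by decide +kernel,
   by decide +kernel,
   by decide +kernel⟩

end Pool.Agent.Lib.MP_afdd4d_co.T1S
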